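import Pool.Agent.H16.TG14

set_option autoImplicit false

open Filter Topology Pool.Agent.H16.CT

namespace Pool.Agent.Results.MP_d1aba8_pr.NoCutoff

/-- There is a sequence of finite irreducible continuous-time Markov chains with
`τ / τ₂ → ∞` which has no typical-start cutoff. -/
theorem result : ∃ (V : ℕ → Type) (_ : ∀ n, Fintype (V n)) (_ : ∀ n, DecidableEq (V n))
    (Q : ∀ n, Matrix (V n) (V n) ℝ) (π : ∀ n, V n → ℝ) (τ : ℕ → ℝ),
    (∀ n, IsGenerator (Q n)) ∧ (∀ n, IsIrreducible (Q n)) ∧ (∀ n, IsStationary (Q n) (π n)) ∧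
    (∀ n, (Q n).IsSymm) ∧
    (∀ n, ∀ x, {t : ℝ | 0 ≤ t ∧ dist (Q n) (π n) x t ≤ 1 / 4}.Nonempty) ∧
    (∀ n, ∀ m : ℝ, IsMedian (Q n) (π n) m ↔ m = τ n) ∧
    (∀ n, 0 < gapC (Q n)) ∧
    Tendsto (fun n => τ n / (1 / gapC (Q n))) atTop atTop ∧
    ¬ (∀ ε : ℝ, 0 < ε →
      Tendsto (fun n => mass (π n)
        {x | 1 - ε < dist (Q n) (π n) x ((1 - ε) * τ n)}) atTop (𝓝 1) ∧
      Tendsto (fun n => mass (π n)
        {x | dist (Q n) (π n) x ((1 + ε) * τ n) < ε}) atTop (𝓝 1)) := by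
  choose G i1 i2 i3 S hsym h0 hgen hcard h1 h2 h3 using
    fun n : ℕ => Pool.Agent.H16.TG.cont (n + 10) (by omega)
  have hS : ∀ n, (S n).Nonempty := by
    intro n
    obtain ⟨a, ha, -⟩ := hgen n 0
    exact ⟨a, ha⟩
  have hgap : ∀ n, 1 / 2 ≤ gapC (QQ (S n)) :=
    fun n => gapC_ge (S n) (hsym n) (h0 n) (h3 n)
  have key := ct_no_cutoff G S h1 h2 (fun n => gapC (QQ (S n))) hgap
  refine ⟨G, i2, i3, fun n => QQ (S n), fun n => unif (G n),
    fun n => tau (QQ (S n)) (unif (G n)) 0,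
    fun n => QQ_gen _ (hS n), fun n => QQ_irr _ (h0 n) (hgen n), fun n => QQ_stat _ (hS n),
    ?_, ?_, ?_, ?_, ?_, ?_⟩
  · intro n
    unfold QQ
    exact (walk_symm (S n) (hsym n)).sub Matrix.isSymm_one
  · intro n x
    exact (tau_bounds (S n) (n + 10) (by omega) (h1 n) (h2 n) x).1
  · intro n m
    exact median_iff (S n) m
  · intro n
    have := hgap n
    linarith
  · exact key.1
  · intro hall
    obtain ⟨ε, e1, e2, e3⟩ := key.2
    exact e3 (hall ε e1).2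

end Pool.Agent.Results.MP_d1aba8_pr.NoCutoff
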